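import Pool.Agent.W207.SW.SpecE
import Pool.Agent.W179.SW.EXT
import Pool.Agent.W578.PR.Dec

/-!
# SW-ALLE: all gaps imply zero, even version
-/

set_option autoImplicit false

open Filter Topology Set MeasureTheory
open scoped BigOperators

namespace Pool.Agent.W293.SW.All

open W207.PR (ct dt Tst)
open W207.SW
open Pool.Agent.W179.SW

/-- an integrable function with vanishing Fourier transform is zero -/
theorem l1_zero (G : ℝ → ℝ) (hG : Integrable G)
    (h : ∀ t : ℝ, ∫ u : ℝ, (G u : ℂ) * Complex.exp (t * u * Complex.I) = 0) :
    ∀ᵐ u : ℝ, G u = 0 := by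
  let p : ℝ → ENNReal := fun u => ENNReal.ofReal (G u)
  let q : ℝ → ENNReal := fun u => ENNReal.ofReal (-G u)
  have hp : AEMeasurable p := hG.aemeasurable.ennreal_ofReal
  have hq : AEMeasurable q := hG.aemeasurable.neg.ennreal_ofReal
  have : IsFiniteMeasure (volume.withDensity p) := isFiniteMeasure_withDensity_ofReal hG.2
  have : IsFiniteMeasure (volume.withDensity q) := isFiniteMeasure_withDensity_ofReal hG.neg.2
  have hbd : ∀ t x : ℝ, ‖Complex.exp (t * x * Complex.I)‖ = 1 := by
    intro t x
    have : (t * x * Complex.I : ℂ) = ((t * x : ℝ) : ℂ) * Complex.I := by push_cast; ring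
    rw [this, Complex.norm_exp_ofReal_mul_I]
  have hint : ∀ (F : ℝ → ℝ), Integrable F → ∀ t : ℝ,
      Integrable fun x : ℝ => F x • Complex.exp (t * x * Complex.I) := by
    intro F hF t
    refine hF.norm.mono' ?_ ?_
    · refine hF.aestronglyMeasurable.smul ?_
      refine Continuous.aestronglyMeasurable ?_
      fun_prop
    · refine Filter.Eventually.of_forall fun x => ?_
      rw [norm_smul, hbd, mul_one]
  have hchar : charFun (volume.withDensity p) = charFun (volume.withDensity q) := by
    funext t
    rw [charFun_apply_real, charFun_apply_real,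
      integral_withDensity_eq_integral_toReal_smul₀ hp
        (Filter.Eventually.of_forall fun _ => ENNReal.ofReal_lt_top),
      integral_withDensity_eq_integral_toReal_smul₀ hq
        (Filter.Eventually.of_forall fun _ => ENNReal.ofReal_lt_top), ← sub_eq_zero,
      ← integral_sub]
    · rw [← h t]
      refine integral_congr_ae (Filter.Eventually.of_forall fun x => ?_)
      simp only [p, q]
      rw [← sub_smul, ENNReal.toReal_ofReal', ENNReal.toReal_ofReal', Complex.real_smul]
      congr 2
      rcases le_total 0 (G x) with h0 | h0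
      · rw [max_eq_left h0, max_eq_right (by linarith)]
        ring
      · rw [max_eq_right h0, max_eq_left (by linarith)]
        ring
    · have : Integrable fun x => (p x).toReal := by
        have h1 := hG.pos_part
        refine h1.congr (Filter.Eventually.of_forall fun x => ?_)
        simp only [p]
        rw [ENNReal.toReal_ofReal']
      exact hint _ this t
    · have : Integrable fun x => (q x).toReal := by
        have h1 := hG.neg.pos_part
        refine h1.congr (Filter.Eventually.of_forall fun x => ?_)
        simp only [q, Pi.neg_apply]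
        rw [ENNReal.toReal_ofReal']
      exact hint _ this t
  have hmeas := Measure.ext_of_charFun hchar
  have h2 := (withDensity_eq_iff_of_sigmaFinite hp hq).mp hmeas
  filter_upwards [h2] with u hu
  simp only [p, q] at hu
  rcases lt_trichotomy (G u) 0 with h0 | h0 | h0
  · rw [ENNReal.ofReal_of_nonpos h0.le] at hu
    have := (ENNReal.ofReal_eq_zero.mp hu.symm)
    linarith
  · exact h0
  · rw [ENNReal.ofReal_of_nonpos (by linarith : -G u ≤ 0)] at hu
    have := (ENNReal.ofReal_eq_zero.mp hu)
    linarith

/-- even extensions of integrable functions are integrable -/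
theorem int_abs {f : ℝ → ℝ} (hf : IntegrableOn f (Ioi 0)) : Integrable fun x : ℝ => f |x| := by
  have hf' : IntegrableOn (fun x => f |x|) (Ioi 0) := by
    refine (integrableOn_congr_fun (fun x hx => ?_) measurableSet_Ioi).mpr hf
    rw [abs_eq_self.mpr (le_of_lt (by exact hx))]
  have int_Iic : IntegrableOn (fun x ↦ f |x|) (Iic 0) := by
    rw [← Measure.map_neg_eq_self (volume : Measure ℝ)]
    let m : MeasurableEmbedding fun x : ℝ => -x := (Homeomorph.neg ℝ).measurableEmbedding
    rw [m.integrableOn_map_iff]
    simp_rw [Function.comp_def, abs_neg, neg_preimage, neg_Iic, neg_zero]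
    exact Iff.mpr integrableOn_Ici_iff_integrableOn_Ioi hf'
  rw [← integrableOn_univ, ← Iic_union_Ioi (a := (0 : ℝ))]
  exact int_Iic.union hf'

/-- the modulated kernel -/
noncomputable def md (χ : ℝ → ℝ) (ξ α : ℝ) : ℝ := (χ (α - ξ) + χ (α + ξ)) / 2

theorem md_ct {χ : ℝ → ℝ} {e : ℝ} (hc : Continuous χ) (hs : ∀ x, e ≤ |x| → χ x = 0) (ξ u : ℝ) :
    ct (md χ ξ) u = ct χ u * Real.cos (2 * Real.pi * ξ * u) := by
  unfold ct md
  have hsh : ∀ η : ℝ, Integrable (fun α : ℝ => χ (α + η) * Real.cos (2 * Real.pi * α * u)) := by
    intro η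
    have h1 : HasCompactSupport (fun α : ℝ => χ (α + η)) :=
      (hcs_of hs).comp_homeomorph (Homeomorph.addRight η)
    exact (by fun_prop : Continuous _).integrable_of_hasCompactSupport h1.mul_right
  have hch : ∀ η : ℝ, ∫ α : ℝ, χ (α + η) * Real.cos (2 * Real.pi * α * u) =
      ∫ α : ℝ, χ α * Real.cos (2 * Real.pi * (α - η) * u) := by
    intro η
    rw [← integral_add_right_eq_self (fun α : ℝ => χ α * Real.cos (2 * Real.pi * (α - η) * u)) η]
    refine integral_congr_ae (Filter.Eventually.of_forall fun α => ?_)
    simp only [add_sub_cancel_right]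
  have h1 : ∀ α : ℝ, (χ (α - ξ) + χ (α + ξ)) / 2 * Real.cos (2 * Real.pi * α * u) =
      (1 / 2) * (χ (α + -ξ) * Real.cos (2 * Real.pi * α * u) +
        χ (α + ξ) * Real.cos (2 * Real.pi * α * u)) := by
    intro α
    rw [← sub_eq_add_neg]
    ring
  simp only [h1]
  rw [integral_const_mul, integral_add (hsh _) (hsh _), hch, hch, ← integral_add,
    ← integral_const_mul, ← integral_mul_const]
  · refine integral_congr_ae (Filter.Eventually.of_forall fun α => ?_)
    simp only
    have e1 : 2 * Real.pi * (α - -ξ) * u = 2 * Real.pi * α * u + 2 * Real.pi * ξ * u := by ring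
    have e2 : 2 * Real.pi * (α - ξ) * u = 2 * Real.pi * α * u - 2 * Real.pi * ξ * u := by ring
    rw [e1, e2, Real.cos_add, Real.cos_sub]
    ring
  · exact int_of (μ := e) (by fun_prop) fun y hy => by rw [hs y hy, zero_mul]
  · exact int_of (μ := e) (by fun_prop) fun y hy => by rw [hs y hy, zero_mul]

theorem alle : S_ALLE := by
  intro E C0 hE hG
  obtain ⟨hEm, hEb⟩ := hE
  -- it suffices to work on `(0, N)`
  have key : ∀ N : ℕ, ∀ᵐ u ∂(volume.restrict (Ioi (0 : ℝ))), u ≤ (N : ℝ) → E u = 0 := by
    intro N
    have hpi := Real.pi_pos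
    obtain ⟨e, he, he1, heN⟩ : ∃ e : ℝ, 0 < e ∧ e < 1 ∧ 2 * Real.pi * e * N ≤ 1 / 2 := by
      refine ⟨min (1 / 2) (1 / (4 * Real.pi * (N + 1))), ?_, ?_, ?_⟩
      · exact lt_min (by norm_num) (by positivity)
      · exact lt_of_le_of_lt (min_le_left _ _) (by norm_num)
      · have h1 : min (1 / 2 : ℝ) (1 / (4 * Real.pi * (N + 1))) ≤ 1 / (4 * Real.pi * (N + 1)) :=
          min_le_right _ _
        have hN : (0 : ℝ) ≤ N := Nat.cast_nonneg N
        calc 2 * Real.pi * min (1 / 2 : ℝ) (1 / (4 * Real.pi * (N + 1))) * N
            ≤ 2 * Real.pi * (1 / (4 * Real.pi * (N + 1))) * N := by gcongr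
          _ = (N / (N + 1)) / 2 := by
            field_simp
            ring
          _ ≤ 1 / 2 := by
            have : (N : ℝ) / (N + 1) ≤ 1 := by
              rw [div_le_one (by positivity)]
              linarith
            linarith
    obtain ⟨χ, hχc, hχe, hχ0, hχs, hχ1⟩ := exists_chi e he
    have hc : Continuous χ := (hχc 0).continuous
    have hT : Tst χ := ⟨hχc, hχe, e, he, he1, hχs⟩
    obtain ⟨hder, _, hdec⟩ := Pool.Agent.W578.PR.dec χ hT
    obtain ⟨K, hK, hK3⟩ := hdec 3
    have hctc : Continuous (ct χ) := continuous_iff_continuousAt.mpr fun u =>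
      (hder u).continuousAt
    have hcte : ∀ u, ct χ (-u) = ct χ u := by
      intro u
      unfold ct
      refine integral_congr_ae (Filter.Eventually.of_forall fun α => ?_)
      simp only
      rw [mul_neg, Real.cos_neg]
    have hctabs : ∀ u, ct χ |u| = ct χ u := by
      intro u
      rcases abs_cases u with h | h
      · rw [h.1]
      · rw [h.1, hcte]
    -- the product
    let g : ℝ → ℝ := fun u => ct χ u * E u
    have hgint : IntegrableOn g (Ioi 0) := by
      refine Integrable.mono' (dom_int (K * |C0|)) ?_ ?_
      · exact (hctc.measurable.mul hEm).aestronglyMeasurable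
      · have hpos : ∀ᵐ u ∂(volume.restrict (Ioi (0 : ℝ))), u ∈ Ioi (0 : ℝ) :=
          ae_restrict_mem measurableSet_Ioi
        filter_upwards [hEb, hpos] with u hu hu0
        have hu0' : (0 : ℝ) < u := hu0
        simp only [g]
        rw [norm_mul, Real.norm_eq_abs, Real.norm_eq_abs]
        have b1 : |ct χ u| ≤ K / (1 + u) ^ 3 := by
          have := (hK3 u).1
          rw [abs_of_pos hu0'] at this
          rw [le_div_iff₀ (by positivity)]
          exact this
        have b2 : |E u| ≤ |C0| * (1 + u) := by
          refine hu.trans ?_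
          exact mul_le_mul_of_nonneg_right (le_abs_self C0) (by linarith)
        calc |ct χ u| * |E u| ≤ K / (1 + u) ^ 3 * (|C0| * (1 + u)) := by gcongr
          _ = _ := by field_simp
    let G : ℝ → ℝ := fun u => g |u|
    have hGint : Integrable G := int_abs hgint
    have hGeven : ∀ u, G (-u) = G u := by
      intro u
      simp only [G, abs_neg]
    have hcos : ∀ ξ : ℝ, ∫ u : ℝ, G u * Real.cos (2 * Real.pi * ξ * u) = 0 := by
      intro ξ
      have h1 : ∀ u : ℝ, G u * Real.cos (2 * Real.pi * ξ * u) =
          (fun v : ℝ => g v * Real.cos (2 * Real.pi * ξ * v)) |u| := by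
        intro u
        simp only [G]
        congr 1
        rcases abs_cases u with h | h
        · rw [h.1]
        · rw [h.1, mul_neg, Real.cos_neg]
      simp only [h1]
      rw [integral_comp_abs (f := fun v : ℝ => g v * Real.cos (2 * Real.pi * ξ * v))]
      have hψ : TstL (|ξ| + e + 1) (md χ ξ) := by
        refine ⟨fun n => ?_, fun x => ?_, |ξ| + e, by positivity, by linarith, fun x hx => ?_⟩
        · unfold md
          have h2 : ContDiff ℝ n fun α : ℝ => χ (α - ξ) :=
            (hχc n).comp (contDiff_id.sub contDiff_const)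
          have h3 : ContDiff ℝ n fun α : ℝ => χ (α + ξ) :=
            (hχc n).comp (contDiff_id.add contDiff_const)
          exact (h2.add h3).div_const 2
        · unfold md
          have h2 : -x - ξ = -(x + ξ) := by ring
          have h3 : -x + ξ = -(x - ξ) := by ring
          rw [h2, h3, hχe, hχe, add_comm]
        · unfold md
          have h2 : e ≤ |x - ξ| := by
            have := abs_sub_abs_le_abs_sub x ξ
            linarith
          have h3 : e ≤ |x + ξ| := by
            have := abs_sub_abs_le_abs_sub x (-ξ)
            rw [abs_neg, sub_neg_eq_add] at this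
            linarith
          rw [hχs _ h2, hχs _ h3]
          norm_num
      have h4 := hG (|ξ| + e + 1) (by positivity) (md χ ξ) hψ
      have h5 : ∫ u in Ioi (0 : ℝ), g u * Real.cos (2 * Real.pi * ξ * u) = 0 := by
        refine Eq.trans ?_ h4
        refine integral_congr_ae (Filter.Eventually.of_forall fun u => ?_)
        simp only [g]
        rw [md_ct hc hχs]
        ring
      rw [h5, mul_zero]
    have hzero : ∀ᵐ u : ℝ, G u = 0 := by
      apply l1_zero G hGint
      intro t
      have hsin : ∫ u : ℝ, G u * Real.sin (2 * Real.pi * u * (t / (2 * Real.pi))) = 0 :=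
        sin_zero hGeven _
      have hcos' := hcos (t / (2 * Real.pi))
      have e1 : ∀ u : ℝ, (G u : ℂ) * Complex.exp (t * u * Complex.I) =
          ((G u * Real.cos (2 * Real.pi * (t / (2 * Real.pi)) * u) : ℝ) : ℂ) +
          ((G u * Real.sin (2 * Real.pi * u * (t / (2 * Real.pi))) : ℝ) : ℂ) * Complex.I := by
        intro u
        have h2 : 2 * Real.pi * (t / (2 * Real.pi)) * u = t * u := by
          field_simp
        have h3 : 2 * Real.pi * u * (t / (2 * Real.pi)) = t * u := by
          field_simp
        rw [h2, h3]
        have h4 : (t * u * Complex.I : ℂ) = ((t * u : ℝ) : ℂ) * Complex.I := by push_cast; ring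
        rw [h4, Complex.exp_mul_I, ← Complex.ofReal_cos, ← Complex.ofReal_sin]
        push_cast
        ring
      simp only [e1]
      have i1 : Integrable fun u : ℝ => G u * Real.cos (2 * Real.pi * (t / (2 * Real.pi)) * u) := by
        refine hGint.norm.mono' ?_ ?_
        · exact hGint.aestronglyMeasurable.mul
            (by fun_prop : Continuous _).aestronglyMeasurable
        · refine Filter.Eventually.of_forall fun x => ?_
          rw [norm_mul]
          exact mul_le_of_le_one_right (norm_nonneg _) (Real.abs_cos_le_one _)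
      have i2 : Integrable fun u : ℝ => G u * Real.sin (2 * Real.pi * u * (t / (2 * Real.pi))) := by
        refine hGint.norm.mono' ?_ ?_
        · exact hGint.aestronglyMeasurable.mul
            (by fun_prop : Continuous _).aestronglyMeasurable
        · refine Filter.Eventually.of_forall fun x => ?_
          rw [norm_mul]
          exact mul_le_of_le_one_right (norm_nonneg _) (Real.abs_sin_le_one _)
      rw [integral_add i1.ofReal (i2.ofReal.mul_const _), integral_mul_const,
        integral_complex_ofReal, integral_complex_ofReal, hcos', hsin]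
      simp
    have hzero' := ae_restrict_of_ae (s := Ioi (0 : ℝ)) hzero
    have hpos : ∀ᵐ u ∂(volume.restrict (Ioi (0 : ℝ))), u ∈ Ioi (0 : ℝ) :=
      ae_restrict_mem measurableSet_Ioi
    filter_upwards [hzero', hpos] with u hu hu0 huN
    have hu0' : (0 : ℝ) < u := hu0
    simp only [G, g, abs_of_pos hu0'] at hu
    have h6 := ct_sub_one hc hχs hχ0 hχ1 u
    rw [abs_of_pos hu0'] at h6
    have h7 : 2 * Real.pi * e * u ≤ 1 / 2 := by
      refine le_trans ?_ heN
      gcongr
    have h8 : ct χ u ≠ 0 := by
      intro h0
      rw [h0, zero_sub, abs_neg, abs_one] at h6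
      linarith
    exact (mul_eq_zero.mp hu).resolve_left h8
  rw [← ae_all_iff] at key
  filter_upwards [key] with u hu
  obtain ⟨N, hN⟩ := exists_nat_ge u
  exact hu N hN

end Pool.Agent.W293.SW.All
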