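import Pool.Agent.W207.SW.SpecE
import Pool.Agent.W179.SW.EXT

/-!
# SW-EXTE: the gap for band-limited test functions, even version
-/

set_option autoImplicit false

open Filter Topology Set MeasureTheory
open scoped BigOperators

namespace Pool.Agent.W293.SW

open W207.PR (ct dt)
open W207.SW
open Pool.Agent.W179.SW

theorem exte : S_EXTE := by
  intro E h C0 Λ a K hE hG ha haΛ hBL hb
  obtain ⟨p, hpc, hpe, hps, hp⟩ := hBL
  obtain ⟨hEm, hEb⟩ := hE
  have hhct : h = ct p := funext hp
  obtain ⟨e0, he0, he0'⟩ : ∃ e0 : ℝ, 0 < e0 ∧ a + e0 < Λ := ⟨(Λ - a) / 2, by linarith, by linarith⟩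
  have hex : ∀ n : ℕ, ∃ χ : ℝ → ℝ, (∀ k : ℕ, ContDiff ℝ k χ) ∧ (∀ x, χ (-x) = χ x) ∧
      (∀ x, 0 ≤ χ x) ∧ (∀ x, e0 / (n + 1) ≤ |x| → χ x = 0) ∧ ∫ x, χ x = 1 :=
    fun n => exists_chi _ (by positivity)
  choose χ hχc hχe hχ0 hχs hχ1 using hex
  have hen : ∀ n : ℕ, 0 < e0 / ((n : ℝ) + 1) := fun n => by positivity
  have hen' : ∀ n : ℕ, e0 / ((n : ℝ) + 1) ≤ e0 := fun n =>
    div_le_self he0.le (by linarith [(Nat.cast_nonneg n : (0 : ℝ) ≤ n)])
  have hcont : ∀ n, Continuous (χ n) := fun n => (hχc n 0).continuous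
  have hint : ∀ n, Integrable (χ n) := fun n => int_of (hcont n) (hχs n)
  have hTst : ∀ n, TstL Λ (mol p (χ n)) := by
    intro n
    refine ⟨mol_smooth hpc hps (hχc n) (hχs n), mol_even hpe (hχe n), a + e0 / ((n : ℝ) + 1), ?_,
      ?_, mol_supp hps (hχs n)⟩
    · have := hen n; linarith
    · have := hen' n; linarith
  have hct : ∀ n u, ct (mol p (χ n)) u = h u * ct (χ n) u := by
    intro n u
    rw [mol_ct hpc hps hpe (hχc n) (hχs n) (hχe n), hhct]
  have hzero : ∀ n, ∫ u in Ioi (0 : ℝ), ct (mol p (χ n)) u * E u = 0 := fun n => hG _ (hTst n)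
  have hmeas : ∀ n, Measurable (ct (mol p (χ n))) := by
    intro n
    have h1 : Continuous (ct (mol p (χ n))) := continuous_iff_continuousAt.mpr fun u =>
      (hasDerivAt_ct (mol_smooth hpc hps (hχc n) (hχs n) 0).continuous
        (mol_supp hps (hχs n)) u).continuousAt
    exact h1.measurable
  have hK : 0 ≤ K := by
    have := hb 0
    have h2 := abs_nonneg (h 0)
    simp only [abs_zero, add_zero, one_pow, div_one] at this
    linarith
  have hlim : Tendsto (fun n => ∫ u in Ioi (0 : ℝ), ct (mol p (χ n)) u * E u) atTop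
      (𝓝 (∫ u in Ioi (0 : ℝ), h u * E u)) := by
    refine tendsto_integral_of_dominated_convergence
      (fun u => (K * |C0|) / (1 + u) ^ 2) ?_ (dom_int _) ?_ ?_
    · intro n
      exact ((hmeas n).mul hEm).aestronglyMeasurable
    · intro n
      have hpos : ∀ᵐ u ∂(volume.restrict (Ioi (0 : ℝ))), u ∈ Ioi (0 : ℝ) :=
        ae_restrict_mem measurableSet_Ioi
      filter_upwards [hEb, hpos] with u hu hu0
      have hu0' : (0 : ℝ) < u := hu0
      rw [norm_mul, Real.norm_eq_abs, Real.norm_eq_abs]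
      have b1 : |ct (mol p (χ n)) u| ≤ K / (1 + u) ^ 3 := by
        rw [hct, abs_mul]
        have c1 := abs_ct_le (hχ0 n) (hχ1 n) (hint n) u
        have d1 := hb u
        rw [abs_of_pos hu0'] at d1
        calc |h u| * |ct (χ n) u| ≤ K / (1 + u) ^ 3 * 1 := by gcongr
          _ = _ := by ring
      have b2 : |E u| ≤ |C0| * (1 + u) := by
        refine hu.trans ?_
        exact mul_le_mul_of_nonneg_right (le_abs_self C0) (by linarith)
      calc |ct (mol p (χ n)) u| * |E u|
          ≤ K / (1 + u) ^ 3 * (|C0| * (1 + u)) := by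
            gcongr
        _ = _ := by
            field_simp
    · refine Filter.Eventually.of_forall fun u => ?_
      have h1 : Tendsto (fun n => ct (mol p (χ n)) u) atTop (𝓝 (h u)) := by
        rw [tendsto_iff_norm_sub_tendsto_zero]
        have h2 : Tendsto (fun n : ℕ => (|h u| * |u|) * (2 * Real.pi * e0) *
            (1 / ((n : ℝ) + 1))) atTop (𝓝 0) := by
          have := (tendsto_one_div_add_atTop_nhds_zero_nat (𝕜 := ℝ)).const_mul
            ((|h u| * |u|) * (2 * Real.pi * e0))
          rwa [mul_zero] at this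
        refine squeeze_zero (fun n => norm_nonneg _) (fun n => ?_) h2
        rw [hct, Real.norm_eq_abs]
        have c1 := ct_sub_one (hcont n) (hχs n) (hχ0 n) (hχ1 n) u
        have e1 : h u * ct (χ n) u - h u = h u * (ct (χ n) u - 1) := by ring
        rw [e1, abs_mul]
        calc |h u| * |ct (χ n) u - 1|
            ≤ |h u| * (2 * Real.pi * (e0 / ((n : ℝ) + 1)) * |u|) := by
              gcongr
          _ = _ := by
              field_simp
      exact h1.mul_const _
  simp only [hzero] at hlim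
  exact (tendsto_nhds_unique hlim tendsto_const_nhds)

end Pool.Agent.W293.SW
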